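import Pool.Agent.N71.SP.All

/-!
# The deterministic part: many split primes at one scale imply that small primes generate a large part of the class group
-/

set_option autoImplicit false

namespace Pool.Agent.P8H6.CN

open Finset Filter NumberField Pool.Agent.H38R2.CG Pool.Agent.H38R2.CG2 Pool.Agent.N71.SP Pool.Agent.N556.SP
open Pool.Agent.R345.IX (Dof)
open scoped Classical

theorem jac_four (d p : ℕ) (hp : p.Prime) (hp2 : p ≠ 2) : jacobiSym ((Dof d : ℕ) : ℤ) p = jacobiSym (d : ℤ) p := by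
  unfold Dof
  split_ifs with h
  · rfl
  · have h1 : (((4 * d : ℕ) : ℕ) : ℤ) = (2 : ℤ) ^ 2 * (d : ℤ) := by push_cast; ring
    rw [h1, jacobiSym.mul_left, jacobiSym.sq_one' (a := 2) (b := p), one_mul]
    have : Nat.Coprime 2 p := (Nat.coprime_primes Nat.prime_two hp).2 (Ne.symm hp2)
    simpa [Int.gcd] using this

theorem det (P : Set ℕ) (σ : ℝ) (hσ0 : 0 < σ) (hσ1 : σ ≤ 1) (hP : Many P σ) (a : ℝ) (ha : 1 < a * σ) (ε : ℝ) (hε : 0 < ε) :
    ∃ d₀ : ℕ, ∀ d : ℕ, d₀ ≤ d → Squarefree d → ∀ X : ℕ, X < Dof d → Dof d ≤ 2 * X →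
      ((QQ P (yS a X)).card : ℝ) / 20 ≤ ∑ p ∈ QQ P (yS a X), (1 + ((jacobiSym (d : ℤ) p : ℤ) : ℝ)) →
        GoodT P a ((1 - σ) / 2 + 1 / (2 * a) + ε) d := by
  have hNUM : E_NUM := Pool.Agent.N386.SP.t_NUM
  have hPAR : E_PAR := Pool.Agent.N519.SP.t_PAR
  have hPAR2 : E_PAR2 := Pool.Agent.N704.SP.t_PAR2
  have h_P_N0 : P_N0 := T_N0
  have h_P_N0d : P_N0d := T_N0d
  have h_P_SPL : P_SPL := T_SPL h_P_N0
  have h_P_N2 : P_N2 := T_N2 h_P_SPL
  have h_P_KR : P_KR := T_KR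
  have h_P_PV : P_PV := T_PV
  have h_P_N3a : P_N3a := T_N3a h_P_KR h_P_PV
  have h_P_N3b : P_N3b := T_N3b h_P_KR h_P_PV h_P_N3a
  have h_P_N3 : P_N3 := T_N3 h_P_N2 h_P_N3b
  obtain ⟨C, hC, hLone⟩ := Pool.Agent.R345.IX.Lone_le h_P_N3a
  have ha1 : 1 < a := by
    by_contra hcon
    rw [not_lt] at hcon
    nlinarith
  have ha0 : 0 < a := by linarith
  obtain ⟨η, hη⟩ : ∃ η : ℝ, η = ε / 8 := ⟨_, rfl⟩
  have hηpos : 0 < η := by rw [hη]; positivity
  have hpar := hPAR P σ hσ0 hσ1 hP a (1 / 2) ha (by norm_num) (by norm_num) η 12800 hηpos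
    (by norm_num)
  have hpk := hPAR2 P σ hσ0 hσ1 hP a ha η 1 hηpos one_pos
  have hlog1 := ERRh.ev_log (η / 2) (by positivity)
  have hc1 := ERRh.ev_const (η / 2) (by positivity) (max (2 * C) 4)
  obtain ⟨X0, hX0⟩ := Filter.eventually_atTop.1 (((hpar.and hpk).and hlog1).and hc1)
  set θ : ℝ := (1 - σ) / 2 + 1 / (2 * a) with hθ
  have hθ0 : 0 ≤ θ := by
    have h1 : 0 ≤ (1 - σ) / 2 := by linarith
    positivity
  obtain ⟨X1, hX1⟩ := Filter.eventually_atTop.1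
    (hPAR P σ hσ0 hσ1 hP a (3 / 2) ha (by norm_num) (by norm_num) 1 1 one_pos le_rfl)
  obtain ⟨X2, hX2⟩ := Filter.eventually_atTop.1
    (ERRh.ev_const (ε / 2) (by positivity) ((4 : ℝ) ^ (θ + ε / 2)))
  refine ⟨2 * X0 + 2 * X1 + X2 + 2, fun d hd hsq X hXD hDX hlow => ?_⟩
  have hdD : d ≤ Dof d := by
    unfold Dof
    split_ifs <;> omega
  have hD4 : Dof d ≤ 4 * d := by
    unfold Dof
    split_ifs <;> omega
  have hXX0 : X0 ≤ X := by omega
  have hXX1 : X1 ≤ X := by omega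
  have hX1' : 1 ≤ X := by omega
  have hd1 : 1 < d := by omega
  obtain ⟨⟨⟨hXp, hXk⟩, hl1⟩, hk1⟩ := hX0 X hXX0
  obtain ⟨q1, q2, q3, q4, q5, q6, q7, q8, q9, -⟩ := hXp
  obtain ⟨-, -, -, r1, r2, r4⟩ := hXk
  have hXr : (1 : ℝ) ≤ X := by exact_mod_cast hX1'
  have hX0' : (0 : ℝ) < X := by linarith
  have hlogX : 0 ≤ Real.log X := Real.log_natCast_nonneg X
  have hXh : 0 < (X : ℝ) ^ (η / 2) := Real.rpow_pos_of_pos hX0' _
  have hB : (12800 : ℝ) ^ (kT a X) ≤ (X : ℝ) ^ η := by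
    refine le_trans ?_ q3
    exact pow_le_pow_right₀ (by norm_num) (by unfold kT; omega)
  have hfund : IsFund (Dof d) := Pool.Agent.R345.IX.isFund_Dof hd1 hsq
  have hlow' : ((QQ P (yS a X)).card : ℝ) / 20 ≤
      ∑ p ∈ QQ P (yS a X), (1 + ((jacobiSym ((Dof d : ℕ) : ℤ) p : ℤ) : ℝ)) := by
    refine hlow.trans (le_of_eq ?_)
    refine Finset.sum_congr rfl fun p hp => ?_
    unfold QQ at hp
    rw [Finset.mem_filter, Finset.mem_Ioc] at hp
    rw [jac_four d p hp.2.1 (by omega)]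
  have hnb := not_bad3 hNUM h_P_N3 P σ a η C ha1 hC hLone X (Dof d) hfund hXD hDX hX1' q1 hB r2 r1
    r4 (by
      have h2C : 2 * C ≤ (X : ℝ) ^ (η / 2) := (le_max_left _ _).trans hk1
      calc C * (2 + Real.log X) ≤ C * (2 * (1 + Real.log X)) := by gcongr; linarith
        _ = (2 * C) * (1 + Real.log X) := by ring
        _ ≤ (X : ℝ) ^ (η / 2) * (X : ℝ) ^ (η / 2) := by gcongr
        _ = (X : ℝ) ^ η := by rw [← Real.rpow_add hX0']; congr 1; ring) (by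
      have h4 : (4 : ℝ) ≤ (X : ℝ) ^ (η / 2) := (le_max_right _ _).trans hk1
      have h5 : (X : ℝ) ^ (η / 2) ≤ (X : ℝ) ^ η :=
        Real.rpow_le_rpow_of_exponent_le hXr (by linarith)
      linarith) hlow'
  have e1 : (1 - σ) / 2 + 1 / (2 * a) + 4 * η = θ + ε / 2 := by rw [hη, hθ]; ring
  rw [e1] at hnb
  intro K i1 i2 h2 hx
  by_contra hlt
  rw [not_le] at hlt
  apply hnb
  refine ⟨K, i1, i2, h2, ?_, ?_⟩
  · rw [h_P_N0d K d hd1 hsq h2 hx]
    unfold Dof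
    split_ifs <;> push_cast <;> rfl
  · intro hle
    refine absurd hle (not_le.2 (lt_of_le_of_lt ?_ hlt))
    have hdr : (0 : ℝ) < d := by
      have : 0 < d := by omega
      exact_mod_cast this
    have hX4 : X ≤ 4 * d := by omega
    have hdX : d ≤ 2 * X := by omega
    obtain ⟨-, -, -, -, -, -, -, -, -, hfin⟩ := hX1 X hXX1
    obtain ⟨g1, g2⟩ := hfin d (by
      have : (X : ℝ) ≤ 4 * d := by exact_mod_cast hX4
      linarith) (by exact_mod_cast hdX)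
    have g3 : ((kT a X : ℕ) : ℝ) ≤ Real.log d / Real.log (Real.log d) := by
      have h5 := kS_third a X
      have h5' : 3 * kT a X ≤ kS a (3 / 2) X := by
        unfold kT
        omega
      have h6 : (3 : ℝ) * ((kT a X : ℕ) : ℝ) ≤ kS a (3 / 2) X := by exact_mod_cast h5'
      have h7 : (0 : ℝ) ≤ kS a (3 / 2) X := Nat.cast_nonneg _
      linarith
    have hsub : Pool.Agent.N71.SP.Reach P K ((2 * yS a X : ℕ) : ℝ) (kT a X) ⊆
        Pool.Agent.N71.SP.Reach P K ((Real.log d) ^ a)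
          (Real.log d / Real.log (Real.log d)) :=
      reach_monoS (by push_cast; exact g1) g3
    have hcard : ((Pool.Agent.N71.SP.Reach P K ((2 * yS a X : ℕ) : ℝ) (kT a X)).ncard : ℝ) ≤
        ((Pool.Agent.N71.SP.Reach P K ((Real.log d) ^ a)
          (Real.log d / Real.log (Real.log d))).ncard : ℝ) := by
      exact_mod_cast Set.ncard_le_ncard hsub (Set.toFinite _)
    have hpow : (X : ℝ) ^ (θ + ε / 2) ≤ (d : ℝ) ^ (θ + ε) := by
      have h4d : (4 : ℝ) ^ (θ + ε / 2) ≤ (d : ℝ) ^ (ε / 2) := hX2 d (by omega)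
      calc (X : ℝ) ^ (θ + ε / 2) ≤ (4 * (d : ℝ)) ^ (θ + ε / 2) := by
            apply Real.rpow_le_rpow (Nat.cast_nonneg _) _ (by positivity)
            exact_mod_cast hX4
        _ = (4 : ℝ) ^ (θ + ε / 2) * (d : ℝ) ^ (θ + ε / 2) :=
            Real.mul_rpow (by norm_num) hdr.le
        _ ≤ (d : ℝ) ^ (ε / 2) * (d : ℝ) ^ (θ + ε / 2) := by gcongr
        _ = (d : ℝ) ^ (θ + ε) := by
            rw [← Real.rpow_add hdr]
            congr 1
            ring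
    exact mul_le_mul hpow hcard (Nat.cast_nonneg _) (by positivity)

end Pool.Agent.P8H6.CN
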