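import Pool.Agent.P8H6.CN.Pr
import Pool.Agent.Y57.FD.Base
import Pool.Agent.N71.SP.Stm

/-!
# Many split primes for `u m + v`, for all `z` in a range, for almost all changes of digits
-/

set_option autoImplicit false

namespace Pool.Agent.P8H6.CN

open Finset Filter Pool.Agent.N71.SP
open Pool.Agent.Y57.FD (digit change exceptions)
open Pool.Agent.TH894.NE (Pr mean box)
open scoped Classical

/-- the primes at the scale `x`: the primes of `P` in `(x/2, 2 (x/2)]`, without `2` -/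
noncomputable def PX (P : Set ℕ) (x : ℕ) : Finset ℕ := (QQ P (x / 2)).filter (fun p => p ≠ 2)

/-- the pairs `(u, v)` -/
noncomputable def Lam (B x : ℕ) : Finset (ℕ × ℤ) := (range (x ^ B + 1)) ×ˢ (Finset.Icc (-((x ^ B : ℕ) : ℤ)) ((x ^ B : ℕ) : ℤ))

theorem Lam_card (B x : ℕ) (hx : 2 ≤ x) : (Lam B x).card ≤ x ^ (2 * B + 4) := by
  unfold Lam
  rw [card_product, card_range, Int.card_Icc]
  have h1 : (((x ^ B : ℕ) : ℤ) + 1 - -((x ^ B : ℕ) : ℤ)).toNat = 2 * x ^ B + 1 := by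
    have : (((x ^ B : ℕ) : ℤ) + 1 - -((x ^ B : ℕ) : ℤ)) = ((2 * x ^ B + 1 : ℕ) : ℤ) := by push_cast; ring
    rw [this, Int.toNat_natCast]
  rw [h1]
  have h2 : 1 ≤ x ^ B := Nat.one_le_pow _ _ (by omega)
  have h3 : x ^ B + 1 ≤ x ^ (B + 1) := by
    rw [pow_succ]
    nlinarith
  have h4 : 2 * x ^ B + 1 ≤ x ^ (B + 2) := by
    have h5 : 4 ≤ x ^ 2 := by nlinarith
    rw [pow_add]
    nlinarith
  calc (x ^ B + 1) * (2 * x ^ B + 1) ≤ x ^ (B + 1) * x ^ (B + 2) := Nat.mul_le_mul h3 h4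
    _ = x ^ (2 * B + 3) := by rw [← pow_add]; congr 1; ring
    _ ≤ x ^ (2 * B + 4) := Nat.pow_le_pow_right (by omega) (by omega)

/-- the elementary part: from the law to the number of split primes -/
theorem split_of_law (P : Set ℕ) (σ : ℝ) (hσ0 : 0 < σ) (hP : Many P σ) (B : ℕ) :
    ∃ z₀ : ℕ, ∀ z : ℕ, z₀ ≤ z → ∀ l : ℕ × ℤ, 1 ≤ l.1 → l.1 ≤ z ^ B → ∀ m : Fin 1 → ℕ,
      |(((PX P (2 * z)).filter (fun p => TT l p m)).card : ℝ) - ∑ p ∈ PX P (2 * z), Pr 1 p (TT l p)| ≤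
        Real.sqrt (max 1 (∑ p ∈ PX P (2 * z), Pr 1 p (TT l p))) * ((2 * z : ℕ) : ℝ) ^ (σ / 8) →
      ((QQ P z).card : ℝ) / 20 ≤ ∑ p ∈ QQ P z, (1 + ((jacobiSym ((l.1 : ℤ) * (m 0 : ℤ) + l.2) p : ℤ) : ℝ)) := by
  obtain ⟨y0, hy0⟩ := hP
  have hlim : Tendsto (fun z : ℕ => (z : ℝ) ^ (σ / 4)) atTop atTop :=
    (tendsto_rpow_atTop (by positivity)).comp tendsto_natCast_atTop_atTop
  obtain ⟨z1, hz1⟩ := Filter.eventually_atTop.1 (hlim.eventually_ge_atTop (40 : ℝ))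
  have hlim2 : Tendsto (fun z : ℕ => (z : ℝ) ^ σ) atTop atTop :=
    (tendsto_rpow_atTop hσ0).comp tendsto_natCast_atTop_atTop
  obtain ⟨z2, hz2⟩ := Filter.eventually_atTop.1 (hlim2.eventually_ge_atTop (8 * (B + 1) : ℝ))
  refine ⟨y0 + z1 + z2 + 2, fun z hz l hl1 hlB m hlaw => ?_⟩
  have hz2' : 2 ≤ z := by omega
  have hzr : (2 : ℝ) ≤ z := by exact_mod_cast hz2'
  have hz0 : (0 : ℝ) < z := by linarith
  have hQc : (z : ℝ) ^ σ ≤ (QQ P z).card := hy0 z (by omega)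
  have hQ8 : (8 * (B + 1) : ℝ) ≤ (QQ P z).card := (hz2 z (by omega)).trans hQc
  have hB0 : (0 : ℝ) ≤ B := Nat.cast_nonneg _
  have hQ1 : (1 : ℝ) ≤ (QQ P z).card := by nlinarith
  have hQmem : ∀ p ∈ QQ P z, p.Prime ∧ z < p := by
    intro p hp
    unfold QQ at hp
    rw [mem_filter, mem_Ioc] at hp
    exact ⟨hp.2.1, hp.1.1⟩
  have hPXeq : PX P (2 * z) = QQ P z := by
    unfold PX
    rw [Nat.mul_div_cancel_left z (by norm_num : 0 < 2)]
    refine filter_true_of_mem fun p hp => ?_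
    have := (hQmem p hp).2
    omega
  rw [hPXeq] at hlaw
  obtain ⟨S, hS⟩ : ∃ S : ℝ, S = ∑ p ∈ QQ P z, Pr 1 p (TT l p) := ⟨_, rfl⟩
  rw [← hS] at hlaw
  have hS1 : S ≤ (QQ P z).card := by
    rw [hS]
    calc ∑ p ∈ QQ P z, Pr 1 p (TT l p) ≤ ∑ _p ∈ QQ P z, (1 : ℝ) := sum_le_sum fun p _ => Pool.Agent.TH894.NE.Pr_le_one _ _ _
      _ = (QQ P z).card := by simp
  have hdiv : ((QQ P z).filter (fun p => p ∣ l.1)).card ≤ B := by
    refine few_div _ z B l.1 hz2' hl1 hlB fun p hp => ?_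
    rw [mem_filter] at hp
    exact ⟨(hQmem p hp.1).1, (hQmem p hp.1).2, hp.2⟩
  have hS2 : (((QQ P z).card : ℝ) - B) / 3 ≤ S := by
    have h1 : ∑ p ∈ (QQ P z).filter (fun p => ¬ p ∣ l.1), (1 : ℝ) / 3 ≤ S := by
      rw [hS]
      refine (sum_le_sum fun p hp => ?_).trans (sum_le_sum_of_subset_of_nonneg (filter_subset _ _) fun p _ _ => Pool.Agent.TH894.NE.Pr_nonneg _ _ _)
      rw [mem_filter] at hp
      have := hQmem p hp.1
      haveI : Fact p.Prime := ⟨this.1⟩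
      exact pr_low p (by omega) l hp.2
    rw [sum_const, nsmul_eq_mul] at h1
    have h2 : ((QQ P z).filter (fun p => p ∣ l.1)).card + ((QQ P z).filter (fun p => ¬ p ∣ l.1)).card = (QQ P z).card :=
      card_filter_add_card_filter_not _
    have h3 : ((QQ P z).card : ℝ) - B ≤ ((QQ P z).filter (fun p => ¬ p ∣ l.1)).card := by
      have : (QQ P z).card ≤ B + ((QQ P z).filter (fun p => ¬ p ∣ l.1)).card := by omega
      have : ((QQ P z).card : ℝ) ≤ B + ((QQ P z).filter (fun p => ¬ p ∣ l.1)).card := by exact_mod_cast this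
      linarith
    linarith
  have herr : Real.sqrt (max 1 S) * ((2 * z : ℕ) : ℝ) ^ (σ / 8) ≤ (QQ P z).card / 20 := by
    have h1 : Real.sqrt (max 1 S) ≤ Real.sqrt (QQ P z).card := Real.sqrt_le_sqrt (max_le hQ1 hS1)
    have h2 : ((2 * z : ℕ) : ℝ) ^ (σ / 8) ≤ (z : ℝ) ^ (σ / 4) := by
      calc ((2 * z : ℕ) : ℝ) ^ (σ / 8) ≤ ((z : ℝ) ^ (2 : ℝ)) ^ (σ / 8) := by
            apply Real.rpow_le_rpow (by positivity) _ (by positivity)
            rw [Real.rpow_two]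
            push_cast
            nlinarith
        _ = (z : ℝ) ^ (σ / 4) := by
            rw [← Real.rpow_mul hz0.le]
            congr 1
            ring
    have h3 : (z : ℝ) ^ (σ / 4) * (z : ℝ) ^ (σ / 4) = (z : ℝ) ^ (σ / 2) := by
      rw [← Real.rpow_add hz0]
      congr 1
      ring
    have h4 : (40 : ℝ) ≤ (z : ℝ) ^ (σ / 4) := hz1 z (by omega)
    have h5 : (z : ℝ) ^ (σ / 2) ≤ Real.sqrt (QQ P z).card := by
      apply Real.le_sqrt_of_sq_le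
      calc ((z : ℝ) ^ (σ / 2)) ^ 2 = (z : ℝ) ^ σ := by
            rw [← Real.rpow_natCast, ← Real.rpow_mul hz0.le]
            congr 1
            push_cast
            ring
        _ ≤ _ := hQc
    have h6 : (z : ℝ) ^ (σ / 4) ≤ Real.sqrt (QQ P z).card / 20 := by
      have h7 : 40 * (z : ℝ) ^ (σ / 4) ≤ (z : ℝ) ^ (σ / 2) := by
        rw [← h3]
        exact mul_le_mul_of_nonneg_right h4 (by positivity)
      have h8 : 0 ≤ (z : ℝ) ^ (σ / 4) := by positivity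
      linarith
    calc Real.sqrt (max 1 S) * ((2 * z : ℕ) : ℝ) ^ (σ / 8) ≤ Real.sqrt (QQ P z).card * (Real.sqrt (QQ P z).card / 20) := by
          apply mul_le_mul h1 (h2.trans h6) (by positivity) (Real.sqrt_nonneg _)
      _ = (QQ P z).card / 20 := by
          rw [mul_div_assoc', Real.mul_self_sqrt (Nat.cast_nonneg _)]
  have hT : ((QQ P z).card : ℝ) / 5 ≤ (((QQ P z).filter (fun p => TT l p m)).card : ℝ) := by
    have := (abs_le.1 (hlaw.trans herr)).1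
    nlinarith
  have hjac : ∀ p : ℕ, ((jacobiSym ((l.1 : ℤ) * (m 0 : ℤ) + l.2) p : ℤ) : ℝ) = 0 ∨ ((jacobiSym ((l.1 : ℤ) * (m 0 : ℤ) + l.2) p : ℤ) : ℝ) = 1 ∨
      ((jacobiSym ((l.1 : ℤ) * (m 0 : ℤ) + l.2) p : ℤ) : ℝ) = -1 := by
    intro p
    rcases jacobiSym.trichotomy ((l.1 : ℤ) * (m 0 : ℤ) + l.2) p with h | h | h
    · left; rw [h]; norm_num
    · right; left; rw [h]; norm_num
    · right; right; rw [h]; norm_num
  have hsum : ∑ p ∈ (QQ P z).filter (fun p => TT l p m), (1 : ℝ) ≤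
      ∑ p ∈ QQ P z, (1 + ((jacobiSym ((l.1 : ℤ) * (m 0 : ℤ) + l.2) p : ℤ) : ℝ)) := by
    refine (sum_le_sum (g := fun p => (1 + ((jacobiSym ((l.1 : ℤ) * (m 0 : ℤ) + l.2) p : ℤ) : ℝ))) fun p hp => ?_).trans
      (sum_le_sum_of_subset_of_nonneg (filter_subset _ _) fun p _ _ => ?_)
    · rw [mem_filter] at hp
      have : jacobiSym ((l.1 : ℤ) * (m 0 : ℤ) + l.2) p = 1 := hp.2
      show (1 : ℝ) ≤ 1 + ((jacobiSym ((l.1 : ℤ) * (m 0 : ℤ) + l.2) p : ℤ) : ℝ)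
      rw [this]
      norm_num
    · rcases hjac p with h | h | h <;> rw [h] <;> norm_num
  rw [sum_const, nsmul_eq_mul, mul_one] at hsum
  linarith

/-- **Split primes for almost all changes of digits.** -/
theorem law_split (P : Set ℕ) (σ : ℝ) (hσ0 : 0 < σ) (hP : Many P σ) (b : ℕ) (hb : 2 ≤ b) (A B : ℕ) :
    ∃ c : ℝ, 0 < c ∧ ∃ y₀ : ℕ, ∀ L r y : ℕ, 2 * r ≤ L → y₀ ≤ y → ∀ N : ℕ, N < b ^ L →
    ∀ f : ℕ → ℕ, (∀ j, f j < b ∧ f j ≠ digit b j N) →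
    ∀ E : (Fin 1 → ℕ) → Prop,
    (∀ m : Fin 1 → ℕ, (∀ z : ℕ, y ≤ z → (z : ℝ) ≤ Real.exp (c * r) / 2 → ∀ u : ℕ, 1 ≤ u → u ≤ z ^ B → ∀ v : ℤ, |v| ≤ ((z ^ B : ℕ) : ℤ) →
      ((QQ P z).card : ℝ) / 20 ≤ ∑ p ∈ QQ P z, (1 + ((jacobiSym ((u : ℤ) * (m 0 : ℤ) + v) p : ℤ) : ℝ))) → E m) →
    (exceptions b (fun _ : Fin 1 => L) (fun _ => r) (fun _ => N) (fun _ => f) E : ℝ) ≤ 1 / (y : ℝ) ^ A * (L.choose r : ℝ) := by
  obtain ⟨z₀, hz₀⟩ := split_of_law P σ hσ0 hP B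
  obtain ⟨c, hc, y₀, h⟩ := Pool.Agent.Y57.FD.law b 1 hb le_rfl (σ / 8) (by positivity) A (2 * B + 4)
  refine ⟨c, hc, y₀ + z₀ + 2, fun L r y hrL hy N hN f hf E hE => ?_⟩
  refine (h (fun _ => L) (fun _ => r) y (fun _ => hrL) (by omega) (fun _ => N) (fun _ => hN) (fun _ => f) (fun _ => hf)
    (ℕ × ℤ) (fun x => Lam B x) (fun x hx => Lam_card B x hx) (fun x _ => PX P x) ?_ TT (fun l p _ n => TT_mod l p n) E ?_).trans (le_of_eq ?_)
  · intro x l p hp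
    unfold PX QQ at hp
    rw [mem_filter, mem_filter, mem_Ioc] at hp
    refine ⟨hp.1.2.1, ?_⟩
    have := hp.1.1.2
    omega
  · intro m hm
    refine hE m fun z hyz hzr u hu1 huB v hv => ?_
    have h2z : ((2 * z : ℕ) : ℝ) ≤ Real.exp (c * r) := by
      push_cast
      linarith
    have hzB : z ^ B ≤ (2 * z) ^ B := Nat.pow_le_pow_left (by omega) _
    have hmem : (u, v) ∈ Lam B (2 * z) := by
      unfold Lam
      rw [mem_product, mem_range, mem_Icc]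
      have h1 := abs_le.1 hv
      have h2 : ((z ^ B : ℕ) : ℤ) ≤ (((2 * z) ^ B : ℕ) : ℤ) := by exact_mod_cast hzB
      refine ⟨?_, ?_, ?_⟩
      · show u < (2 * z) ^ B + 1
        omega
      · show -(((2 * z) ^ B : ℕ) : ℤ) ≤ v
        omega
      · show v ≤ (((2 * z) ^ B : ℕ) : ℤ)
        omega
    exact hz₀ z (by omega) (u, v) hu1 huB m (hm (2 * z) (by omega) (by omega) (fun _ => h2z) (u, v) hmem)
  · simp

end Pool.Agent.P8H6.CN
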