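import Pool.Agent.P8H6.CN.Det
import Pool.Agent.P8H6.CN.Law

/-!
# Class groups of real quadratic fields near the integers obtained by changing few digits: assembly
-/

set_option autoImplicit false

namespace Pool.Agent.P8H6.CN

open Finset Filter Pool.Agent.N71.SP
open Pool.Agent.Y57.FD (digit change)
open Pool.Agent.R345.IX (Dof)
open scoped Classical

theorem sum_digits_lt (b : ℕ) (L : ℕ) (g : ℕ → ℕ) (hg : ∀ i, g i < b) : ∑ i ∈ range L, g i * b ^ i < b ^ L := by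
  induction L with
  | zero => simp
  | succ L ih =>
    rw [sum_range_succ, pow_succ]
    have h1 : (g L + 1) * b ^ L ≤ b * b ^ L := Nat.mul_le_mul_right _ (hg L)
    nlinarith

theorem change_lt (b L N : ℕ) (hb : 1 ≤ b) (f : ℕ → ℕ) (hf : ∀ j, f j < b) (S : Finset ℕ) : change b L N f S < b ^ L := by
  unfold change
  refine sum_digits_lt b L (fun i => if i ∈ S then f i else digit b i N) fun i => ?_
  show (if i ∈ S then f i else digit b i N) < b
  split_ifs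
  · exact hf i
  · exact Nat.mod_lt _ (by omega)

/-- The number of the choices of `r` of `L` positions for which the number obtained does not have the property `E`. -/
noncomputable def exceptions (b L r N : ℕ) (f : ℕ → ℕ) (E : ℕ → Prop) : ℕ :=
  ((powersetCard r (range L)).filter (fun S => ¬ E (change b L N f S))).card

theorem exc_le (b L r N : ℕ) (hb : 1 ≤ b) (f : ℕ → ℕ) (hf : ∀ j, f j < b) (E : ℕ → Prop) (F : (Fin 1 → ℕ) → Prop)
    (hF : ∀ m, F m → m 0 < b ^ L → E (m 0)) :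
    exceptions b L r N f E ≤ Pool.Agent.Y57.FD.exceptions b (fun _ : Fin 1 => L) (fun _ => r) (fun _ => N) (fun _ => f) F := by
  unfold exceptions Pool.Agent.Y57.FD.exceptions
  refine card_le_card_of_injOn (fun S => fun _ => S) ?_ ?_
  · intro S hS
    have hS' := Finset.mem_filter.1 (Finset.mem_coe.1 hS)
    refine Finset.mem_coe.2 (Finset.mem_filter.2 ⟨Fintype.mem_piFinset.2 fun _ => hS'.1, fun h => hS'.2 ?_⟩)
    exact hF _ h (change_lt b L N hb f hf S)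
  · intro S _ S' _ h
    exact congrFun h 0

theorem main (P : Set ℕ) (σ a ε : ℝ) (hσ0 : 0 < σ) (hσ1 : σ ≤ 1) (hP : Many P σ) (ha : 1 < a * σ) (hε : 0 < ε) (b : ℕ) (hb : 2 ≤ b)
    (A B : ℕ) : ∃ C : ℝ, 0 < C ∧ ∃ L₀ : ℕ, ∀ L r : ℕ, L₀ ≤ L → C * Real.log L ≤ r → 2 * r ≤ L → ∀ N : ℕ, N < b ^ L →
    ∀ f : ℕ → ℕ, (∀ j, f j < b ∧ f j ≠ digit b j N) →
    (exceptions b L r N f (fun m => ∀ u : ℕ, 1 ≤ u → u ≤ L ^ B → ∀ v : ℤ, |v| ≤ ((L ^ B : ℕ) : ℤ) → ∀ d : ℕ, (d : ℤ) = (u : ℤ) * (m : ℤ) + v →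
      Squarefree d → Real.exp ((L : ℝ) ^ ε) ≤ d → GoodT P a ((1 - σ) / 2 + 1 / (2 * a) + ε) d) : ℝ) ≤
        1 / (L : ℝ) ^ A * (L.choose r : ℝ) := by
  have ha1 : 1 < a := by
    by_contra hcon
    rw [not_lt] at hcon
    nlinarith
  have ha0 : 0 < a := by linarith
  obtain ⟨d₀, hd₀⟩ := det P σ hσ0 hσ1 hP a ha ε hε
  obtain ⟨A', hA'⟩ : ∃ A' : ℕ, 2 * (A : ℝ) / ε ≤ A' := exists_nat_ge _
  obtain ⟨B', hB'⟩ : ∃ B' : ℕ, 2 * (B : ℝ) / ε ≤ B' := exists_nat_ge _
  obtain ⟨c, hc, y₀, hlaw⟩ := law_split P σ hσ0 hP b hb A' B'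
  obtain ⟨C₁, hC₁⟩ : ∃ C₁ : ℝ, C₁ = 3 + B + Real.log b := ⟨_, rfl⟩
  have hlogb : 0 ≤ Real.log b := Real.log_natCast_nonneg b
  have hC₁1 : 1 ≤ C₁ := by
    have : (0 : ℝ) ≤ B := Nat.cast_nonneg _
    linarith
  have hlim : Tendsto (fun L : ℕ => (L : ℝ) ^ (ε / 2)) atTop atTop :=
    (tendsto_rpow_atTop (by positivity)).comp tendsto_natCast_atTop_atTop
  obtain ⟨L1, hL1⟩ := Filter.eventually_atTop.1 (hlim.eventually_ge_atTop ((y₀ : ℝ) + d₀ + 10))
  obtain ⟨L2, hL2⟩ := Filter.eventually_atTop.1 ((tendsto_natCast_atTop_atTop (R := ℝ)).eventually_ge_atTop (2 * C₁ ^ a))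
  refine ⟨(a + 1) / c, by positivity, L1 + L2 + 2, fun L r hL hr hrL N hN f hf => ?_⟩
  have hLr : (2 : ℝ) ≤ L := by exact_mod_cast (by omega : 2 ≤ L)
  have hL0 : (0 : ℝ) < L := by linarith
  obtain ⟨t, ht⟩ : ∃ t : ℝ, t = (L : ℝ) ^ (ε / 2) := ⟨_, rfl⟩
  have htL := hL1 L (by omega)
  rw [← ht] at htL
  have hy0r : (0 : ℝ) ≤ y₀ := Nat.cast_nonneg _
  have hd0r : (0 : ℝ) ≤ d₀ := Nat.cast_nonneg _
  have ht10 : 10 ≤ t := by linarith
  have htt : (L : ℝ) ^ ε = t * t := by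
    rw [ht, ← Real.rpow_add hL0]
    congr 1
    ring
  obtain ⟨y, hy⟩ : ∃ y : ℕ, y = ⌈t⌉₊ := ⟨_, rfl⟩
  have hty : t ≤ y := by rw [hy]; exact Nat.le_ceil _
  have hyt : (y : ℝ) < t + 1 := by rw [hy]; exact Nat.ceil_lt_add_one (by linarith)
  have hyy₀ : y₀ ≤ y := by
    have : (y₀ : ℝ) ≤ y := by linarith
    exact_mod_cast this
  have hpow : ∀ (n n' : ℕ), 2 * (n : ℝ) / ε ≤ n' → ∀ z : ℝ, t ≤ z → (L : ℝ) ^ n ≤ z ^ n' := by
    intro n n' hn z hz
    have h1 : (L : ℝ) ^ n = t ^ (2 * (n : ℝ) / ε) := by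
      rw [ht, ← Real.rpow_mul hL0.le, ← Real.rpow_natCast]
      congr 1
      field_simp
    calc (L : ℝ) ^ n = t ^ (2 * (n : ℝ) / ε) := h1
      _ ≤ t ^ (n' : ℝ) := Real.rpow_le_rpow_of_exponent_le (by linarith) hn
      _ ≤ z ^ (n' : ℝ) := Real.rpow_le_rpow (by linarith) hz (Nat.cast_nonneg _)
      _ = z ^ n' := Real.rpow_natCast _ _
  have hmain := hlaw L r y hrL hyy₀ N hN f hf (fun m => m 0 < b ^ L → (∀ u : ℕ, 1 ≤ u → u ≤ L ^ B → ∀ v : ℤ, |v| ≤ ((L ^ B : ℕ) : ℤ) →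
      ∀ d : ℕ, (d : ℤ) = (u : ℤ) * ((m 0 : ℕ) : ℤ) + v → Squarefree d → Real.exp ((L : ℝ) ^ ε) ≤ d →
      GoodT P a ((1 - σ) / 2 + 1 / (2 * a) + ε) d)) (by
    intro m hm hmb u hu huB v hv d hd hsq hdL
    have hdr : (0 : ℝ) < d := lt_of_lt_of_le (Real.exp_pos _) hdL
    have hd1 : 1 ≤ d := by exact_mod_cast hdr
    -- size of `d`
    have hdlog : (L : ℝ) ^ ε ≤ Real.log d := by
      rw [Real.le_log_iff_exp_le hdr]
      exact hdL
    have hdd₀ : d₀ ≤ d := by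
      have h1 : (d₀ : ℝ) ≤ t * t := by nlinarith
      have h2 := Real.add_one_le_exp (t * t)
      rw [← htt] at h1 h2
      have : (d₀ : ℝ) ≤ d := by linarith
      exact_mod_cast this
    have hd2 : 2 ≤ d := by
      by_contra hcon
      have : d = 1 := by omega
      rw [this, Nat.cast_one, Real.log_one, htt] at hdlog
      nlinarith
    have hdub : (d : ℝ) ≤ 2 * (L : ℝ) ^ B * (b : ℝ) ^ L := by
      have h1 : (d : ℝ) = (u : ℝ) * (m 0 : ℝ) + (v : ℝ) := by exact_mod_cast hd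
      have h2 : (u : ℝ) ≤ (L : ℝ) ^ B := by exact_mod_cast huB
      have h3 : (m 0 : ℝ) ≤ (b : ℝ) ^ L := by exact_mod_cast hmb.le
      have h4 : (v : ℝ) ≤ (L : ℝ) ^ B := by
        have := (abs_le.1 hv).2
        have : (v : ℝ) ≤ ((L ^ B : ℕ) : ℤ) := by exact_mod_cast this
        push_cast at this
        exact this
      have h5 : (1 : ℝ) ≤ (b : ℝ) ^ L := one_le_pow₀ (by exact_mod_cast (by omega : 1 ≤ b))
      have h6 : (0 : ℝ) ≤ (L : ℝ) ^ B := by positivity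
      have h7 : (u : ℝ) * (m 0 : ℝ) ≤ (L : ℝ) ^ B * (b : ℝ) ^ L := mul_le_mul h2 h3 (Nat.cast_nonneg _) h6
      have h8 : (L : ℝ) ^ B * 1 ≤ (L : ℝ) ^ B * (b : ℝ) ^ L := mul_le_mul_of_nonneg_left h5 h6
      rw [h1]
      linarith
    -- the scale
    have hDd : d ≤ Dof d := by unfold Dof; split_ifs <;> omega
    have hD4 : Dof d ≤ 4 * d := by unfold Dof; split_ifs <;> omega
    obtain ⟨X, hX⟩ : ∃ X : ℕ, X = (Dof d + 1) / 2 := ⟨_, rfl⟩
    have hX1 : X < Dof d := by omega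
    have hX2 : Dof d ≤ 2 * X := by omega
    have hXpos : (0 : ℝ) < X := by exact_mod_cast (by omega : 0 < X)
    have hXlow : (d : ℝ) / 2 ≤ X := by
      have : (d : ℝ) ≤ 2 * X := by exact_mod_cast (by omega : d ≤ 2 * X)
      linarith
    have hXup : (X : ℝ) ≤ 4 * d := by exact_mod_cast (by omega : X ≤ 4 * d)
    have hlogXlow : (L : ℝ) ^ ε / 2 ≤ Real.log X := by
      have h1 : Real.log ((d : ℝ) / 2) ≤ Real.log X := Real.log_le_log (by positivity) hXlow
      rw [Real.log_div hdr.ne' (by norm_num)] at h1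
      have h2 := Real.log_two_lt_d9
      have h3 : (2 : ℝ) ≤ (L : ℝ) ^ ε := by rw [htt]; nlinarith
      linarith
    have hlogXup : Real.log X ≤ C₁ * L := by
      have h1 : (X : ℝ) ≤ 8 * ((L : ℝ) ^ B * (b : ℝ) ^ L) := by linarith
      have h2 : Real.log X ≤ Real.log (8 * ((L : ℝ) ^ B * (b : ℝ) ^ L)) := Real.log_le_log hXpos h1
      have hbr : (0 : ℝ) < b := by exact_mod_cast (by omega : 0 < b)
      rw [Real.log_mul (by norm_num) (by positivity), Real.log_mul (by positivity) (by positivity), Real.log_pow, Real.log_pow] at h2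
      have h3 : Real.log 8 ≤ 3 := by
        have : (8 : ℝ) = 2 ^ 3 := by norm_num
        rw [this, Real.log_pow]
        have := Real.log_two_lt_d9
        push_cast
        linarith
      have h4 : Real.log L ≤ L := (Real.log_le_sub_one_of_pos hL0).trans (by linarith)
      have h5 : (B : ℝ) * Real.log L ≤ B * L := mul_le_mul_of_nonneg_left h4 (Nat.cast_nonneg _)
      have h6 : (3 : ℝ) ≤ 3 * L := by linarith
      rw [hC₁]
      nlinarith
    obtain ⟨z, hz⟩ : ∃ z : ℕ, z = yS a X := ⟨_, rfl⟩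
    have hzlow : y ≤ z := by
      rw [hz]
      unfold yS
      apply Nat.le_floor
      have h1 : 1 ≤ (L : ℝ) ^ ε / 2 := by rw [htt]; nlinarith
      have h2 : (L : ℝ) ^ ε / 2 ≤ (Real.log X) ^ a := by
        have h3 := Real.rpow_le_rpow_of_exponent_le (h1.trans hlogXlow) ha1.le
        rw [Real.rpow_one] at h3
        linarith
      have h4 : t + 1 ≤ (L : ℝ) ^ ε / 2 / 4 := by rw [htt]; nlinarith
      linarith
    have hzup : (z : ℝ) ≤ Real.exp (c * r) / 2 := by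
      have hlogX0 : 0 ≤ Real.log X := by
        have : (0 : ℝ) ≤ (L : ℝ) ^ ε := by positivity
        linarith
      have h1 : (z : ℝ) ≤ (Real.log X) ^ a / 4 := by
        rw [hz]
        unfold yS
        exact Nat.floor_le (by positivity)
      have h2 : (Real.log X) ^ a ≤ (C₁ * L) ^ a := Real.rpow_le_rpow hlogX0 hlogXup ha0.le
      have h3 : (C₁ * L) ^ a = C₁ ^ a * (L : ℝ) ^ a := Real.mul_rpow (by linarith) hL0.le
      have h4 : (L : ℝ) ^ (a + 1) ≤ Real.exp (c * r) := by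
        rw [Real.rpow_def_of_pos hL0]
        apply Real.exp_le_exp.2
        have h5 : (a + 1) * Real.log L ≤ c * r := by
          have := mul_le_mul_of_nonneg_left hr hc.le
          calc (a + 1) * Real.log L = c * ((a + 1) / c * Real.log L) := by field_simp
            _ ≤ c * r := this
        linarith
      have h5 : (L : ℝ) ^ (a + 1) = (L : ℝ) ^ a * L := by
        rw [Real.rpow_add hL0, Real.rpow_one]
      have h6 := hL2 L (by omega)
      have h7 : (0 : ℝ) < (L : ℝ) ^ a := by positivity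
      have h8 : (L : ℝ) ^ a * (2 * C₁ ^ a) ≤ (L : ℝ) ^ a * L := mul_le_mul_of_nonneg_left h6 h7.le
      have h9 : 0 < C₁ ^ a := by positivity
      nlinarith
    have hztr : t ≤ (z : ℝ) := by
      have : (y : ℝ) ≤ z := by exact_mod_cast hzlow
      linarith
    have hLz : L ^ B ≤ z ^ B' := by
      have := hpow B B' hB' z hztr
      exact_mod_cast this
    have hkey := hm z hzlow hzup u hu (huB.trans hLz) v (hv.trans (by exact_mod_cast hLz))
    rw [← hd, hz] at hkey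
    exact hd₀ d hdd₀ hsq X hX1 hX2 hkey)
  have h1 : (exceptions b L r N f (fun m => ∀ u : ℕ, 1 ≤ u → u ≤ L ^ B → ∀ v : ℤ, |v| ≤ ((L ^ B : ℕ) : ℤ) → ∀ d : ℕ, (d : ℤ) = (u : ℤ) * (m : ℤ) + v →
      Squarefree d → Real.exp ((L : ℝ) ^ ε) ≤ d → GoodT P a ((1 - σ) / 2 + 1 / (2 * a) + ε) d) : ℝ) ≤ 1 / (y : ℝ) ^ A' * (L.choose r : ℝ) := by
    refine le_trans ?_ hmain
    exact_mod_cast exc_le b L r N (by omega) f (fun j => (hf j).1) _ _ (fun m h => h)
  refine h1.trans (mul_le_mul_of_nonneg_right ?_ (Nat.cast_nonneg _))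
  apply one_div_le_one_div_of_le (by positivity)
  exact hpow A A' hA' y hty

end Pool.Agent.P8H6.CN
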