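import Pool.Agent.Y57.FD.HypM
import Mathlib

/-!
# The proportion of the residues `n` modulo `p` with `(u n + v / p) = 1`; primes dividing a number
-/

set_option autoImplicit false

namespace Pool.Agent.P8H6.CN

open Finset
open Pool.Agent.TH894.NE (Pr mean box)

/-- the condition -/
def TT (l : ℕ × ℤ) (p : ℕ) (n : Fin 1 → ℕ) : Prop := jacobiSym ((l.1 : ℤ) * (n 0 : ℤ) + l.2) p = 1

theorem TT_mod (l : ℕ × ℤ) (p : ℕ) (n : Fin 1 → ℕ) : TT l p n ↔ TT l p (fun i => n i % p) := by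
  unfold TT
  have h : jacobiSym ((l.1 : ℤ) * (n 0 : ℤ) + l.2) p = jacobiSym ((l.1 : ℤ) * ((n 0 % p : ℕ) : ℤ) + l.2) p := by
    rw [jacobiSym.mod_left, jacobiSym.mod_left ((l.1 : ℤ) * ((n 0 % p : ℕ) : ℤ) + l.2)]
    congr 1
    push_cast
    rw [Int.add_emod, Int.mul_emod, Int.add_emod ((l.1 : ℤ) * ((n 0 : ℤ) % (p : ℤ))), Int.mul_emod (l.1 : ℤ) ((n 0 : ℤ) % (p : ℤ)), Int.emod_emod]
  rw [h]

theorem pr_low (p : ℕ) [Fact p.Prime] (hp2 : p ≠ 2) (l : ℕ × ℤ) (hu : ¬ p ∣ l.1) : (1 : ℝ) / 3 ≤ Pr 1 p (TT l p) := by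
  classical
  have hp : p.Prime := Fact.out
  have hp3 : 3 ≤ p := by
    have := hp.two_le
    omega
  have hpr : (3 : ℝ) ≤ p := by exact_mod_cast hp3
  have hu0 : (l.1 : ZMod p) ≠ 0 := by
    intro h
    exact hu ((ZMod.natCast_eq_zero_iff _ _).1 h)
  have hring : ringChar (ZMod p) ≠ 2 := by
    rw [ZMod.ringChar_zmod_n]
    exact hp2
  -- as a sum over `ZMod p`
  have e1 : (((box 1 p).filter (TT l p)).card : ℝ) = ∑ n ∈ box 1 p, (if TT l p n then (1 : ℝ) else 0) := by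
    rw [card_filter]
    push_cast
    rfl
  have e2 : ∑ n ∈ box 1 p, (if TT l p n then (1 : ℝ) else 0) =
      ∑ w : Fin 1 → ZMod p, (if quadraticChar (ZMod p) ((l.1 : ZMod p) * w 0 + (l.2 : ZMod p)) = 1 then (1 : ℝ) else 0) := by
    rw [← Pool.Agent.Y57.FD.HM.sum_box p (fun w : Fin 1 → ZMod p => if quadraticChar (ZMod p) ((l.1 : ZMod p) * w 0 + (l.2 : ZMod p)) = 1 then (1 : ℝ) else 0)]
    refine sum_congr rfl fun n _ => ?_
    have h : TT l p n ↔ quadraticChar (ZMod p) ((l.1 : ZMod p) * ((n 0 : ℕ) : ZMod p) + (l.2 : ZMod p)) = 1 := by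
      unfold TT
      rw [← jacobiSym.legendreSym.to_jacobiSym]
      unfold legendreSym
      push_cast
      exact Iff.rfl
    by_cases hT : TT l p n
    · rw [if_pos hT, if_pos (h.1 hT)]
    · rw [if_neg hT, if_neg (fun h' => hT (h.2 h'))]
  have e3 : ∑ w : Fin 1 → ZMod p, (if quadraticChar (ZMod p) ((l.1 : ZMod p) * w 0 + (l.2 : ZMod p)) = 1 then (1 : ℝ) else 0) =
      ∑ c : ZMod p, (if quadraticChar (ZMod p) ((l.1 : ZMod p) * c + (l.2 : ZMod p)) = 1 then (1 : ℝ) else 0) :=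
    Fintype.sum_equiv (Equiv.funUnique (Fin 1) (ZMod p)) _ _ (fun w => rfl)
  have e4 : ∑ c : ZMod p, (if quadraticChar (ZMod p) ((l.1 : ZMod p) * c + (l.2 : ZMod p)) = 1 then (1 : ℝ) else 0) =
      ∑ c : ZMod p, (if quadraticChar (ZMod p) c = 1 then (1 : ℝ) else 0) := by
    refine Fintype.sum_bijective (fun c : ZMod p => (l.1 : ZMod p) * c + (l.2 : ZMod p)) ?_ _ _ (fun c => rfl)
    rw [Fintype.bijective_iff_injective_and_card]
    refine ⟨fun x y hxy => ?_, rfl⟩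
    have : (l.1 : ZMod p) * x = (l.1 : ZMod p) * y := by simpa using hxy
    exact mul_left_cancel₀ hu0 this
  have e5 : ∑ c : ZMod p, (1 + ((quadraticChar (ZMod p) c : ℤ) : ℝ)) = p := by
    rw [sum_add_distrib, ← Int.cast_sum, quadraticChar_sum_zero hring]
    simp
  have e6 : ∑ c : ZMod p, (1 + ((quadraticChar (ZMod p) c : ℤ) : ℝ)) ≤
      ∑ c : ZMod p, (2 * (if quadraticChar (ZMod p) c = 1 then (1 : ℝ) else 0) + (if c = 0 then (1 : ℝ) else 0)) := by
    refine sum_le_sum fun c _ => ?_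
    by_cases hc : c = 0
    · subst hc
      rw [if_pos rfl, quadraticChar_zero]
      norm_num
    · rw [if_neg hc]
      rcases quadraticChar_dichotomy hc with h | h
      · rw [h, if_pos rfl]
        norm_num
      · rw [h, if_neg (by norm_num)]
        norm_num
  rw [e5, sum_add_distrib, ← mul_sum] at e6
  have e7 : ∑ c : ZMod p, (if c = 0 then (1 : ℝ) else 0) = 1 := by simp
  rw [e7] at e6
  unfold Pr
  rw [e1, e2, e3, e4, pow_one, div_le_div_iff₀ (by norm_num) (by linarith)]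
  linarith

/-- few primes larger than `z` divide `u ≤ z ^ k` -/
theorem few_div (S : Finset ℕ) (z k u : ℕ) (hz : 2 ≤ z) (hu : 1 ≤ u) (huk : u ≤ z ^ k) (hS : ∀ p ∈ S, p.Prime ∧ z < p ∧ p ∣ u) : S.card ≤ k := by
  have h1 : ∏ p ∈ S, p ∣ u := Finset.prod_primes_dvd u (fun p hp => (hS p hp).1.prime) (fun p hp => (hS p hp).2.2)
  have h2 : z ^ S.card ≤ ∏ p ∈ S, p := Finset.pow_card_le_prod _ _ _ (fun p hp => (hS p hp).2.1.le)
  have h3 := Nat.le_of_dvd hu h1
  exact (Nat.pow_le_pow_iff_right (by omega)).1 (h2.trans (h3.trans huk))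

end Pool.Agent.P8H6.CN
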